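import Pool.Agent.H61.Shatter.Main

/-!
# Six permutations shattering triples: `0.4976 ≤ L₃ ≤ 1/2`

`F k n m` is the largest proportion of the `k`-subsets of an `n`-set that are shattered by a family
of exactly `m` permutations, and `L₃ = lim F 3 n 6`.

Upper bound: in a shattered triple each pair is ordered one way by exactly three of the six orders.
The 20 balanced sign vectors of length six carry, through the outer automorphism of `S₆`, six dual
tournaments; a shattered triple is cyclic in three of the six dual tournaments, and a tournament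
has at most a quarter of its triples cyclic.  Lower bound: iterated blow-up of an explicit
configuration of six orders of 96 points with nearly regular dual tournaments.
-/

set_option autoImplicit false

open Filter Topology

namespace Pool.Agent.Results.MP_dc1b75_co.Bracket

/-- A permutation `P` of `Fin n` is regarded as the linear order `P 0, P 1, …, P (n - 1)`, so that
`x` comes before `y` iff `P.symm x < P.symm y`.  `R` shatters the `k`-set `X` if each of the `k!`
orderings `g 0, g 1, …, g (k - 1)` of the elements of `X` is the restriction to `X` of some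
`P ∈ R`. -/
def Shatters (k : ℕ) {n : ℕ} (R : Finset (Equiv.Perm (Fin n))) (X : Finset (Fin n)) : Prop :=
  ∀ g : Fin k ↪ Fin n, Finset.univ.map g = X →
    ∃ P ∈ R, ∀ i j : Fin k, i < j → P.symm (g i) < P.symm (g j)

open Classical in
/-- the number of `k`-subsets of `Fin n` shattered by `R` -/
noncomputable def shattered (k : ℕ) {n : ℕ} (R : Finset (Equiv.Perm (Fin n))) : ℕ :=
  (((Finset.univ : Finset (Fin n)).powersetCard k).filter fun X => Shatters k R X).card

/-- `F_k(n, m)`: the largest proportion of `k`-subsets shattered by exactly `m` permutations -/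
noncomputable def F (k n m : ℕ) : ℝ :=
  sSup {α : ℝ | ∃ R : Finset (Equiv.Perm (Fin n)), R.card = m ∧
    α = (shattered k R : ℝ) / (n.choose k : ℝ)}

/-- `0.4976 ≤ F_3(n, 6) ≤ (n + 1) / (2 (n - 2))` for every `n ≥ 3`, and the limit
`L_3 = lim F_3(n, 6)` exists and satisfies `0.4976 ≤ L_3 ≤ 1/2`. -/
theorem result :
    (∀ n : ℕ, 3 ≤ n → (0.4976 : ℝ) ≤ F 3 n 6 ∧ F 3 n 6 ≤ (n + 1) / (2 * (n - 2))) ∧
    ∃ L : ℝ, Tendsto (fun n => F 3 n 6) atTop (𝓝 L) ∧ 0.4976 ≤ L ∧ L ≤ 1 / 2 :=
  Pool.Agent.H61.Shatter.main

end Pool.Agent.Results.MP_dc1b75_co.Bracket
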